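import Pool.Agent.E8helper30.RG.Stm3

/-!
# RG3 / GROW (helper87)
-/

set_option autoImplicit false

namespace Pool.Agent.E8helper87.RG

open SimpleGraph Pool.Agent.E8helper30.RG

theorem path_unique {n : ℕ} {G : SimpleGraph (Fin n)} {ρ : ℕ}
    (hc : ∀ (v : Fin n) (w : G.Walk v v), w.IsCycle → 2 * ρ < w.length)
    {u v : Fin n} (p p' : G.Walk u v) (hp : p.IsPath) (hp' : p'.IsPath)
    (h1 : p.length ≤ ρ) (h2 : p'.length ≤ ρ) : p = p' := by
  classical
  let E : Finset (Sym2 (Fin n)) := p.edges.toFinset ∪ p'.edges.toFinset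
  have hE : E.card ≤ 2 * ρ := by
    calc E.card ≤ p.edges.toFinset.card + p'.edges.toFinset.card := Finset.card_union_le _ _
      _ ≤ p.edges.length + p'.edges.length :=
        add_le_add (List.toFinset_card_le _) (List.toFinset_card_le _)
      _ ≤ 2 * ρ := by rw [Walk.length_edges, Walk.length_edges]; omega
  have hEG : ∀ e ∈ E, e ∈ G.edgeSet := by
    intro e he
    rw [Finset.mem_union, List.mem_toFinset, List.mem_toFinset] at he
    rcases he with he | he
    · exact p.edges_subset_edgeSet he
    · exact p'.edges_subset_edgeSet he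
  let G' : SimpleGraph (Fin n) := SimpleGraph.fromEdgeSet (E : Set (Sym2 (Fin n)))
  have hle : G' ≤ G := by
    intro a b hab
    rw [SimpleGraph.fromEdgeSet_adj] at hab
    exact hEG _ (Finset.mem_coe.mp hab.1)
  have hmem : ∀ e ∈ E, e ∈ G'.edgeSet := by
    intro e he
    rw [SimpleGraph.edgeSet_fromEdgeSet]
    exact ⟨Finset.mem_coe.mpr he, G.not_isDiag_of_mem_edgeSet (hEG e he)⟩
  have hac : G'.IsAcyclic := by
    intro x c hc'
    have h := hc x (c.mapLe hle) (hc'.mapLe hle)
    rw [Walk.length_map] at h
    have h3 : c.length ≤ E.card := by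
      rw [← Walk.length_edges, ← List.toFinset_card_of_nodup hc'.edges_nodup]
      apply Finset.card_le_card
      intro e he
      rw [List.mem_toFinset] at he
      have := c.edges_subset_edgeSet he
      rw [SimpleGraph.edgeSet_fromEdgeSet] at this
      exact Finset.mem_coe.mp this.1
    omega
  have e1 : ∀ e ∈ p.edges, e ∈ G'.edgeSet := fun e he =>
    hmem e (Finset.mem_union_left _ (List.mem_toFinset.mpr he))
  have e2 : ∀ e ∈ p'.edges, e ∈ G'.edgeSet := fun e he =>
    hmem e (Finset.mem_union_right _ (List.mem_toFinset.mpr he))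
  have h4 := hac.path_unique ⟨p.transfer G' e1, hp.transfer e1⟩ ⟨p'.transfer G' e2, hp'.transfer e2⟩
  have h5 : p.transfer G' e1 = p'.transfer G' e2 := congrArg Subtype.val h4
  apply Walk.ext_support
  rw [← Walk.support_transfer p e1, h5, Walk.support_transfer]

/-- the vertices reached from `v0` by a path of length `j` inside `S` -/
def L {n : ℕ} (G : SimpleGraph (Fin n)) (S : Set (Fin n)) (v0 : Fin n) (j : ℕ) : Set (Fin n) :=
  {x | ∃ p : G.Walk v0 x, p.IsPath ∧ p.length = j ∧ ∀ y ∈ p.support, y ∈ S}

theorem nb_unique {n : ℕ} {G : SimpleGraph (Fin n)} {ρ : ℕ}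
    (hc : ∀ (v : Fin n) (w : G.Walk v v), w.IsCycle → 2 * ρ < w.length)
    {v0 x : Fin n} (p : G.Walk v0 x) (hp : p.IsPath) (hl : p.length + 1 ≤ ρ) (w : Fin n)
    (hw : w ∈ p.support) (hxw : G.Adj x w) : w = p.getVert (p.length - 1) := by
  have h1 : p.dropUntil w hw = Walk.cons hxw.symm Walk.nil := by
    apply path_unique hc
    · exact hp.dropUntil hw
    · rw [Walk.cons_isPath_iff]
      refine ⟨Walk.IsPath.nil, ?_⟩
      simp [hxw.ne']
    · have := p.length_dropUntil_le_length hw
      omega
    · simp
      omega
  have h2 : (p.dropUntil w hw).length = 1 := by rw [h1]; simp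
  have h3 := congrArg Walk.length (p.take_spec hw)
  rw [Walk.length_append, h2] at h3
  rw [← p.getVert_length_takeUntil hw]
  congr 1
  omega

theorem t_GROW : S_GROW := by
  classical
  intro n q ρ G S hS hdeg hc
  obtain ⟨v0, hv0⟩ := hS
  have key : ∀ j ≤ ρ, q ^ j ≤ (L G S v0 j).toFinset.card := by
    intro j
    induction j with
    | zero =>
      intro _
      rw [pow_zero]
      apply Finset.card_pos.mpr
      refine ⟨v0, ?_⟩
      rw [Set.mem_toFinset]
      exact ⟨Walk.nil, Walk.IsPath.nil, rfl, by simpa using hv0⟩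
    | succ j ih =>
      intro hj
      have ih' := ih (by omega)
      have hch : ∀ x : Fin n, ∃ N : Finset (Fin n), x ∈ L G S v0 j →
          (q ≤ N.card ∧ ∀ w ∈ N, ∃ (p : G.Walk v0 x) (h : G.Adj x w), p.IsPath ∧ p.length = j ∧
            (∀ y ∈ p.support, y ∈ S) ∧ w ∉ p.support ∧ w ∈ S) := by
        intro x
        by_cases hx : x ∈ L G S v0 j
        · obtain ⟨p, hp, hpl, hpS⟩ := hx
          have hxS : x ∈ S := hpS x p.end_mem_support
          refine ⟨({w | w ∈ S ∧ G.Adj x w} : Set (Fin n)).toFinset.erase (p.getVert (p.length - 1)),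
            fun _ => ⟨?_, ?_⟩⟩
          · have h1 := hdeg x hxS
            rw [Set.ncard_eq_toFinset_card'] at h1
            have h2 := Finset.pred_card_le_card_erase
              (s := ({w | w ∈ S ∧ G.Adj x w} : Set (Fin n)).toFinset)
              (a := p.getVert (p.length - 1))
            omega
          · intro w hw
            rw [Finset.mem_erase, Set.mem_toFinset] at hw
            refine ⟨p, hw.2.2, hp, hpl, hpS, ?_, hw.2.1⟩
            intro hws
            exact hw.1 (nb_unique hc p hp (by omega) w hws hw.2.2)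
        · exact ⟨∅, fun h => absurd h hx⟩
      choose N hN using hch
      have hdisj : ((L G S v0 j).toFinset : Set (Fin n)).PairwiseDisjoint N := by
        intro x hx y hy hxy
        rw [Function.onFun, Finset.disjoint_left]
        intro w hwx hwy
        rw [Finset.mem_coe, Set.mem_toFinset] at hx hy
        obtain ⟨p, h, hp, hpl, hpS, hwp, hwS⟩ := (hN x hx).2 w hwx
        obtain ⟨p', h', hp', hpl', hpS', hwp', hwS'⟩ := (hN y hy).2 w hwy
        have h3 : p.concat h = p'.concat h' := by
          apply path_unique hc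
          · exact hp.concat hwp h
          · exact hp'.concat hwp' h'
          · rw [Walk.length_concat]; omega
          · rw [Walk.length_concat]; omega
        have h4 := congrArg Walk.penultimate h3
        rw [Walk.penultimate_concat, Walk.penultimate_concat] at h4
        exact hxy h4
      have hsub : (L G S v0 j).toFinset.biUnion N ⊆ (L G S v0 (j + 1)).toFinset := by
        intro w hw
        rw [Finset.mem_biUnion] at hw
        obtain ⟨x, hx, hwx⟩ := hw
        rw [Set.mem_toFinset] at hx
        obtain ⟨p, h, hp, hpl, hpS, hwp, hwS⟩ := (hN x hx).2 w hwx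
        rw [Set.mem_toFinset]
        refine ⟨p.concat h, hp.concat hwp h, by rw [Walk.length_concat, hpl], ?_⟩
        intro y hy
        rw [Walk.support_concat] at hy
        simp only [List.mem_append, List.mem_singleton] at hy
        rcases hy with hy | hy
        · exact hpS y hy
        · rw [hy]; exact hwS
      calc q ^ (j + 1) = q ^ j * q := pow_succ _ _
        _ ≤ (L G S v0 j).toFinset.card * q := Nat.mul_le_mul_right _ ih'
        _ = ∑ x ∈ (L G S v0 j).toFinset, q := by rw [Finset.sum_const, smul_eq_mul]
        _ ≤ ∑ x ∈ (L G S v0 j).toFinset, (N x).card := by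
            apply Finset.sum_le_sum
            intro x hx
            rw [Set.mem_toFinset] at hx
            exact (hN x hx).1
        _ = ((L G S v0 j).toFinset.biUnion N).card := (Finset.card_biUnion hdisj).symm
        _ ≤ _ := Finset.card_le_card hsub
  have h := key ρ le_rfl
  have h2 := Finset.card_le_univ (L G S v0 ρ).toFinset
  rw [Fintype.card_fin] at h2
  omega

end Pool.Agent.E8helper87.RG
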